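import Pool.Agent.EDX.Stmts1
import Pool.Agent.Helper91_EDX.PET

/-!
# Squad EDX, row FDW (helper15, backup)
-/

set_option autoImplicit false

namespace Pool.Agent.EDX.H15

open Polynomial Module Pool.Agent.EDX

section

variable {K : Type} [Field K] {Fm : K[X]}

theorem comp_ne (h2 : Fm.natDegree = 2) {f : K[X]} (hf : f ≠ 0) : f.comp Fm ≠ 0 := by
  intro h
  have h1 := leadingCoeff_comp (p := f) (q := Fm) (by rw [h2]; norm_num)
  rw [h, leadingCoeff_zero] at h1
  have hF : Fm.leadingCoeff ≠ 0 := by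
    rw [Ne, leadingCoeff_eq_zero]
    intro h0; rw [h0] at h2; simp at h2
  exact (mul_ne_zero (leadingCoeff_ne_zero.mpr hf) (pow_ne_zero _ hF)) h1.symm

theorem deg_comp (h2 : Fm.natDegree = 2) {f : K[X]} (hf : f ≠ 0) :
    (f.comp Fm).degree = ((2 * f.natDegree : ℕ) : WithBot ℕ) := by
  rw [degree_eq_natDegree (comp_ne h2 hf), natDegree_comp, h2, mul_comm]

theorem deg_X_comp (h2 : Fm.natDegree = 2) {f : K[X]} (hf : f ≠ 0) :
    (X * f.comp Fm).degree = ((2 * f.natDegree + 1 : ℕ) : WithBot ℕ) := by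
  rw [degree_mul, degree_X, deg_comp h2 hf, add_comm]
  rfl

theorem dc1 (h2 : Fm.natDegree = 2) {f : K[X]} {r : ℕ} (hf : f.degree < (r : WithBot ℕ)) :
    (f.comp Fm).degree < ((2 * r : ℕ) : WithBot ℕ) := by
  by_cases h0 : f = 0
  · rw [h0, zero_comp, degree_zero]; exact WithBot.bot_lt_coe _
  rw [deg_comp h2 h0]
  rw [degree_eq_natDegree h0] at hf
  have : f.natDegree < r := by exact_mod_cast hf
  exact_mod_cast (by omega : 2 * f.natDegree < 2 * r)

theorem dc2 (h2 : Fm.natDegree = 2) {f : K[X]} {r : ℕ} (hf : f.degree < (r : WithBot ℕ)) :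
    (X * f.comp Fm).degree < ((2 * r : ℕ) : WithBot ℕ) := by
  by_cases h0 : f = 0
  · rw [h0, zero_comp, mul_zero, degree_zero]; exact WithBot.bot_lt_coe _
  rw [deg_X_comp h2 h0]
  rw [degree_eq_natDegree h0] at hf
  have : f.natDegree < r := by exact_mod_cast hf
  exact_mod_cast (by omega : 2 * f.natDegree + 1 < 2 * r)

theorem par (h2 : Fm.natDegree = 2) {f₀ f₁ : K[X]} {r : ℕ}
    (hf : (f₀.comp Fm + X * f₁.comp Fm).degree < ((2 * r : ℕ) : WithBot ℕ)) :
    f₀.degree < (r : WithBot ℕ) ∧ f₁.degree < (r : WithBot ℕ) := by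
  by_cases h0 : f₀ = 0
  · by_cases h1 : f₁ = 0
    · rw [h0, h1, degree_zero]; exact ⟨WithBot.bot_lt_coe _, WithBot.bot_lt_coe _⟩
    · rw [h0, zero_comp, zero_add, deg_X_comp h2 h1] at hf
      have h3 : 2 * f₁.natDegree + 1 < 2 * r := by exact_mod_cast hf
      rw [h0, degree_zero, degree_eq_natDegree h1]
      exact ⟨WithBot.bot_lt_coe _, by exact_mod_cast (by omega : f₁.natDegree < r)⟩
  · by_cases h1 : f₁ = 0
    · rw [h1, zero_comp, mul_zero, add_zero, deg_comp h2 h0] at hf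
      have h3 : 2 * f₀.natDegree < 2 * r := by exact_mod_cast hf
      rw [h1, degree_zero, degree_eq_natDegree h0]
      exact ⟨by exact_mod_cast (by omega : f₀.natDegree < r), WithBot.bot_lt_coe _⟩
    · have e0 := deg_comp h2 h0
      have e1 := deg_X_comp h2 h1
      rcases lt_or_gt_of_ne (show 2 * f₀.natDegree ≠ 2 * f₁.natDegree + 1 by omega) with h | h
      · have hlt : (f₀.comp Fm).degree < (X * f₁.comp Fm).degree := by
          rw [e0, e1]; exact_mod_cast h
        rw [degree_add_eq_right_of_degree_lt hlt, e1] at hf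
        have h3 : 2 * f₁.natDegree + 1 < 2 * r := by exact_mod_cast hf
        rw [degree_eq_natDegree h0, degree_eq_natDegree h1]
        exact ⟨by exact_mod_cast (by omega : f₀.natDegree < r),
          by exact_mod_cast (by omega : f₁.natDegree < r)⟩
      · have hlt : (X * f₁.comp Fm).degree < (f₀.comp Fm).degree := by
          rw [e0, e1]; exact_mod_cast h
        rw [degree_add_eq_left_of_degree_lt hlt, e0] at hf
        have h3 : 2 * f₀.natDegree < 2 * r := by exact_mod_cast hf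
        rw [degree_eq_natDegree h0, degree_eq_natDegree h1]
        exact ⟨by exact_mod_cast (by omega : f₀.natDegree < r),
          by exact_mod_cast (by omega : f₁.natDegree < r)⟩

theorem decomp (hm : Fm.Monic) (h2 : Fm.natDegree = 2) (f : K[X]) :
    ∃ f₀ f₁ : K[X], f = f₀.comp Fm + X * f₁.comp Fm := by
  induction hN : f.natDegree using Nat.strong_induction_on generalizing f with
  | _ N ih =>
    have hrem : (f %ₘ Fm).degree < ((2 : ℕ) : WithBot ℕ) := by
      have := degree_modByMonic_lt f hm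
      rwa [degree_eq_natDegree hm.ne_zero, h2] at this
    have hrem' : (f %ₘ Fm) = C ((f %ₘ Fm).coeff 0) + X * C ((f %ₘ Fm).coeff 1) := by
      have h3 : (f %ₘ Fm).natDegree ≤ 1 := by
        by_cases h0 : f %ₘ Fm = 0
        · rw [h0, natDegree_zero]; exact Nat.zero_le _
        · rw [degree_eq_natDegree h0] at hrem
          have : (f %ₘ Fm).natDegree < 2 := by exact_mod_cast hrem
          omega
      have h4 := eq_X_add_C_of_natDegree_le_one h3
      calc (f %ₘ Fm) = C ((f %ₘ Fm).coeff 1) * X + C ((f %ₘ Fm).coeff 0) := h4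
        _ = _ := by ring
    by_cases hlt : N < 2
    · refine ⟨C (f.coeff 0), C (f.coeff 1), ?_⟩
      have h3 : f.natDegree ≤ 1 := by omega
      have h4 := eq_X_add_C_of_natDegree_le_one h3
      rw [C_comp, C_comp]
      calc f = C (f.coeff 1) * X + C (f.coeff 0) := h4
        _ = _ := by ring
    · push Not at hlt
      have hq : (f /ₘ Fm).natDegree < N := by
        rw [natDegree_divByMonic f hm, h2]; omega
      obtain ⟨g₀, g₁, hg⟩ := ih _ hq (f /ₘ Fm) rfl
      refine ⟨X * g₀ + C ((f %ₘ Fm).coeff 0), X * g₁ + C ((f %ₘ Fm).coeff 1), ?_⟩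
      rw [add_comp, add_comp, mul_comp, mul_comp, X_comp, C_comp, C_comp]
      have h4 := modByMonic_add_div f Fm
      calc f = f %ₘ Fm + Fm * (f /ₘ Fm) := h4.symm
        _ = (C ((f %ₘ Fm).coeff 0) + X * C ((f %ₘ Fm).coeff 1)) +
            Fm * (g₀.comp Fm + X * g₁.comp Fm) := by rw [← hg, ← hrem']
        _ = _ := by ring

end

theorem fdw (hG : GcdStmt) (hH : HnfStmt) : FdwStmt := by
  classical
  intro k₀ K A _ _ _ _ _ _ T Φ Ψ c c' r hc0 hΨ hΦ hc hr
  have h2 : T.Fm.natDegree = 2 := T.deg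
  set ΨF : K[X] := Ψ.comp T.Fm with hΨF
  set G : K[X] := EuclideanDomain.gcd Φ ΨF with hGdef
  obtain ⟨Φ1, hΦ1⟩ : G ∣ Φ := EuclideanDomain.gcd_dvd_left Φ ΨF
  have hGΨ : G ∣ ΨF := EuclideanDomain.gcd_dvd_right Φ ΨF
  have hbez : G = EuclideanDomain.gcdA Φ ΨF * Φ + EuclideanDomain.gcdB Φ ΨF * ΨF := by
    rw [hGdef, EuclideanDomain.gcd_eq_gcd_ab Φ ΨF]
    ring
  have hΦ0 : Φ ≠ 0 := hΦ.1
  have hΨ0 : Ψ ≠ 0 := hΨ.1
  have hΨF0 : ΨF ≠ 0 := comp_ne h2 hΨ0
  have hG0 : G ≠ 0 := by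
    intro h0
    rw [h0, zero_mul] at hΦ1
    exact hΦ0 hΦ1
  have hΦ10 : Φ1 ≠ 0 := by
    intro h0
    rw [h0, mul_zero] at hΦ1
    exact hΦ0 hΦ1
  have h9 : Φ.natDegree = G.natDegree + Φ1.natDegree := by
    conv_lhs => rw [hΦ1]
    exact natDegree_mul hG0 hΦ10
  obtain ⟨m, s, u, v, hm0, hs0, hmsv, hu, hΦm, hΦus, hdeg⟩ := hH K T.Fm Φ1 T.monic h2 hΦ10
  have hv0 : v ≠ 0 := by
    intro h0; rw [h0, mul_zero] at hmsv; exact hm0 hmsv
  have hmdeg : m.natDegree = s.natDegree + v.natDegree := by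
    rw [hmsv]; exact natDegree_mul hs0 hv0
  -- step (i)
  have step1 : ∀ P ∈ LL T.mu Φ (2 * r), T.al P ∈ LL T.mu (m * Ψ) r ∧ T.be P ∈ LL T.mu (m * Ψ) r := by
    intro P hP
    have hdv : ∀ f : K[X], m * Ψ ∣ f → Φ ∣ f.comp T.Fm := by
      rintro f ⟨w, rfl⟩
      rw [mul_comp, mul_comp]
      refine dvd_mul_of_dvd_left ?_ _
      rw [hΦ1, mul_comm G Φ1]
      exact mul_dvd_mul hΦm hGΨ
    refine ⟨fun f hf hfr => ?_, fun f hf hfr => ?_⟩
    · rw [T.hal]
      exact hP _ (hdv f hf) (dc1 h2 hfr)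
    · rw [T.hbe]
      exact hP _ (dvd_mul_of_dvd_right (hdv f hf) _) (dc2 h2 hfr)
  -- step (ii)
  have step2 : ∀ P ∈ LL T.mu Φ (2 * r), T.al P ∈ LL T.mu Ψ r → T.be P ∈ LL T.mu (s * Ψ) r := by
    intro P hP hal f hf hfr
    obtain ⟨f₁, rfl⟩ := hf
    by_cases hf10 : f₁ = 0
    · rw [hf10, mul_zero, map_zero]
    have hdiv : f₁ = v * (f₁ / v) + f₁ % v := (EuclideanDomain.div_add_mod f₁ v).symm
    set f₂ := f₁ / v with hf2
    set f₀ := f₁ % v with hf0
    have hsplit : s * Ψ * f₁ = m * Ψ * f₂ + s * Ψ * f₀ := by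
      conv_lhs => rw [hdiv]
      rw [hmsv]; ring
    have hfirst : T.mu (T.be P) (m * Ψ * f₂) = 0 := by
      refine (step1 P hP).2 _ ⟨f₂, rfl⟩ ?_
      by_cases hf20 : f₂ = 0
      · rw [hf20, mul_zero, degree_zero]; exact WithBot.bot_lt_coe _
      · have h3 : (v * f₂).degree ≤ f₁.degree := by
          by_cases hlt : f₁.degree < v.degree
          · exfalso
            apply hf20
            rw [hf2]
            exact (Polynomial.div_eq_zero_iff hv0).mpr hlt
          · push Not at hlt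
            rw [degree_mul, hf2, degree_add_div hv0 hlt]
        refine lt_of_le_of_lt ?_ hfr
        calc (m * Ψ * f₂).degree = (s * Ψ).degree + (v * f₂).degree := by
              rw [← degree_mul, hmsv]; congr 1; ring
          _ ≤ (s * Ψ).degree + f₁.degree := by gcongr
          _ = (s * Ψ * f₁).degree := by rw [degree_mul (p := s * Ψ)]
    have hsecond : T.mu (T.be P) (s * Ψ * f₀) = 0 := by
      by_cases hf00 : f₀ = 0
      · rw [hf00, mul_zero, map_zero]
      have hf0deg : f₀.natDegree + 1 ≤ v.natDegree := by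
        have h3 : f₀.degree < v.degree := EuclideanDomain.mod_lt f₁ hv0
        exact Nat.succ_le_of_lt (natDegree_lt_natDegree hf00 h3)
      have hM : m.natDegree ≤ Φ.natDegree := by omega
      have hud : u.natDegree ≤ m.natDegree := natDegree_le_natDegree hu.le
      have hrw : T.mu (T.be P) (s * Ψ * f₀) =
          T.mu P ((u.comp T.Fm + X * s.comp T.Fm) * ΨF * f₀.comp T.Fm) -
            T.mu (T.al P) (u * Ψ * f₀) := by
        rw [T.hbe, T.hal, ← map_sub]
        congr 1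
        simp only [mul_comp, hΨF]
        ring
      rw [hrw]
      have hA : T.mu P ((u.comp T.Fm + X * s.comp T.Fm) * ΨF * f₀.comp T.Fm) = 0 := by
        refine hP _ ?_ ?_
        · refine dvd_mul_of_dvd_left ?_ _
          rw [hΦ1, mul_comm G Φ1]
          exact mul_dvd_mul hΦus hGΨ
        · apply lt_of_le_of_lt degree_le_natDegree
          have h5 : ((u.comp T.Fm + X * s.comp T.Fm) * ΨF * f₀.comp T.Fm).natDegree ≤
              (2 * m.natDegree + 1) + 2 * Ψ.natDegree + 2 * f₀.natDegree := by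
            refine natDegree_mul_le.trans ?_
            refine add_le_add (natDegree_mul_le.trans (add_le_add ?_ ?_)) ?_
            · refine (natDegree_add_le _ _).trans (max_le ?_ ?_)
              · rw [natDegree_comp, h2]; omega
              · refine natDegree_mul_le.trans ?_
                rw [natDegree_X, natDegree_comp, h2]; omega
            · rw [hΨF, natDegree_comp, h2]; omega
            · rw [natDegree_comp, h2]; omega
          exact_mod_cast (by omega : ((u.comp T.Fm + X * s.comp T.Fm) * ΨF *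
            f₀.comp T.Fm).natDegree < 2 * r)
      have hB : T.mu (T.al P) (u * Ψ * f₀) = 0 := by
        refine hal _ ⟨u * f₀, by ring⟩ ?_
        apply lt_of_le_of_lt degree_le_natDegree
        have h5 : (u * Ψ * f₀).natDegree ≤ m.natDegree + Ψ.natDegree + f₀.natDegree := by
          refine natDegree_mul_le.trans ?_
          refine add_le_add (natDegree_mul_le.trans (add_le_add hud le_rfl)) le_rfl
        exact_mod_cast (by omega : (u * Ψ * f₀).natDegree < r)
      rw [hA, hB, sub_zero]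
    rw [hsplit, map_add, hfirst, hsecond, add_zero]
  -- step (iii)
  have step3 : ∀ P, T.al P ∈ LL T.mu Ψ r → T.be P ∈ LL T.mu Ψ r → P ∈ LL T.mu ΨF (2 * r) := by
    intro P ha hb f hf hfr
    obtain ⟨w, rfl⟩ := hf
    obtain ⟨w₀, w₁, hw⟩ := decomp T.monic h2 w
    have h3 : ΨF * w = (Ψ * w₀).comp T.Fm + X * (Ψ * w₁).comp T.Fm := by
      rw [hw, mul_comp, mul_comp]; ring
    rw [h3] at hfr ⊢
    obtain ⟨hd0, hd1⟩ := par h2 hfr
    rw [map_add, ← T.hal, ← T.hbe, ha _ ⟨w₀, rfl⟩ hd0, hb _ ⟨w₁, rfl⟩ hd1, add_zero]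
  -- step (iv)
  obtain ⟨L0, hL0⟩ : ∃ L : Submodule k₀ A, L = LL T.mu Φ (2 * r) := ⟨_, rfl⟩
  obtain ⟨Y, hY⟩ : ∃ L : Submodule k₀ A, L = LL T.mu Ψ r := ⟨_, rfl⟩
  have e1 := Pool.Agent.Helper91_EDX.PET.exact T.al L0 Y
  have e2 := Pool.Agent.Helper91_EDX.PET.exact T.be (L0 ⊓ Y.comap T.al) Y
  have b1 : finrank k₀ (Y ⊔ L0.map T.al : Submodule k₀ A) ≤ finrank k₀ (LL T.mu (m * Ψ) r) := by
    apply Submodule.finrank_mono
    refine sup_le ?_ ?_
    · rw [hY]; exact LL_mono_dvd T.mu (Dvd.intro_left m rfl) r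
    · rw [Submodule.map_le_iff_le_comap]
      intro P hP
      rw [hL0] at hP
      exact (step1 P hP).1
  have b2 : finrank k₀ (Y ⊔ (L0 ⊓ Y.comap T.al).map T.be : Submodule k₀ A) ≤
      finrank k₀ (LL T.mu (s * Ψ) r) := by
    apply Submodule.finrank_mono
    refine sup_le ?_ ?_
    · rw [hY]; exact LL_mono_dvd T.mu (Dvd.intro_left s rfl) r
    · rw [Submodule.map_le_iff_le_comap]
      rintro P ⟨hP, hP2⟩
      rw [hL0] at hP
      rw [hY] at hP2
      exact step2 P hP hP2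
  have b3 : finrank k₀ ((L0 ⊓ Y.comap T.al) ⊓ Y.comap T.be : Submodule k₀ A) ≤
      finrank k₀ (LL T.mu G (2 * r)) := by
    apply Submodule.finrank_mono
    rintro P ⟨⟨hP, hP2⟩, hP3⟩
    rw [hL0] at hP
    rw [hY] at hP2 hP3
    have hdF : ΨF.natDegree = Ψ.natDegree * 2 := by rw [hΨF, natDegree_comp, h2]
    exact hG k₀ K A T.mu Φ ΨF G (EuclideanDomain.gcdA Φ ΨF) (EuclideanDomain.gcdB Φ ΨF) (2 * r)
      (2 * r) hΦ0 hΨF0 ⟨Φ1, hΦ1⟩ hGΨ hbez le_rfl (by rw [hdF]; omega) ⟨hP, step3 P hP2 hP3⟩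
  have h6 := hΨ.2 (m * Ψ) (mul_ne_zero hm0 hΨ0)
  have h6' := hΨ.2 (s * Ψ) (mul_ne_zero hs0 hΨ0)
  have h7 := hΦ.2 G hG0
  rw [natDegree_mul hm0 hΨ0] at h6
  rw [natDegree_mul hs0 hΨ0] at h6'
  rw [h9] at h7
  push_cast at h6 h6' h7
  rw [← hY] at h6 h6'
  rw [← hL0] at h7
  have e : finrank k₀ L0 + finrank k₀ Y + finrank k₀ Y ≤ finrank k₀ (LL T.mu G (2 * r)) +
      finrank k₀ (LL T.mu (m * Ψ) r) + finrank k₀ (LL T.mu (s * Ψ) r) := by omega
  have e' : ((finrank k₀ L0 : ℕ) : ℝ) + (finrank k₀ Y : ℕ) + (finrank k₀ Y : ℕ) ≤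
      (finrank k₀ (LL T.mu G (2 * r)) : ℕ) + (finrank k₀ (LL T.mu (m * Ψ) r) : ℕ) +
        (finrank k₀ (LL T.mu (s * Ψ) r) : ℕ) := by exact_mod_cast e
  have hdeg' : (m.natDegree : ℝ) + s.natDegree ≤ Φ1.natDegree := by exact_mod_cast hdeg
  have h10 : c * (m.natDegree : ℝ) + c * s.natDegree ≤ c * Φ1.natDegree := by
    rw [← mul_add]; exact mul_le_mul_of_nonneg_left hdeg' hc0
  have h11 : (c' - c) * (Φ1.natDegree : ℝ) ≤ 0 := by nlinarith
  have h12 : (Φ1.natDegree : ℝ) ≤ 0 := by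
    by_contra hcon
    push Not at hcon
    have : 0 < (c' - c) * (Φ1.natDegree : ℝ) := mul_pos (sub_pos.2 hc) hcon
    linarith
  have h13 : Φ1.natDegree = 0 := by
    have : Φ1.natDegree ≤ 0 := by exact_mod_cast h12
    omega
  have h14 : IsUnit Φ1 := by
    rw [Polynomial.isUnit_iff_degree_eq_zero, degree_eq_natDegree hΦ10, h13]
    rfl
  have h15 : Φ ∣ G := by
    obtain ⟨w, hw⟩ := h14
    refine ⟨↑(w⁻¹), ?_⟩
    conv_rhs => rw [hΦ1, ← hw]
    rw [mul_assoc, Units.mul_inv, mul_one]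
  exact h15.trans hGΨ

end Pool.Agent.EDX.H15
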