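import Pool.Agent.EDX.Stmts4

set_option autoImplicit false

namespace Pool.Agent.EDX.H15

open Polynomial Finset Pool.Agent.EDG Pool.Agent.EDX Module

theorem fin (hA : CsaStmt) (hB : CsbStmt) (hNA : NmaStmt) (hNB : NmbStmt) (hP : ParStmt)
    (hQ : Qz0Stmt) (hS : SetStmt) : FinStmt := by
  intro ε hε
  -- reduction to `ε < 1`
  by_cases hε1 : 1 ≤ ε
  · refine ⟨2, fun n c hn hc => ?_⟩
    obtain ⟨g, hg, hD⟩ := hS n c hn hc
    have h1 : 1 ≤ (minpoly ℚ c).natDegree := by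
      have := hg.natDegree_pos
      omega
    have h2 : (2 : ℝ) ^ ((1 - ε) * n) ≤ 1 := by
      apply Real.rpow_le_one_of_one_le_of_nonpos (by norm_num)
      have : (0 : ℝ) ≤ n := Nat.cast_nonneg n
      nlinarith
    have h3 : (1 : ℝ) ≤ (minpoly ℚ c).natDegree := by exact_mod_cast h1
    linarith
  push Not at hε1
  set δ : ℝ := ε / 20 with hδ
  have hδ0 : 0 < δ := by positivity
  have hδ1 : δ ≤ 1 / 20 := by rw [hδ]; linarith
  have hδ2 : δ ≤ 1 := by linarith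
  obtain ⟨q₀, hq₀, hlog⟩ := hQ δ hδ0
  obtain ⟨C₁, hC₁, hCB⟩ := hB q₀ hq₀
  obtain ⟨b, d, J, n₀, K₂, K₃, hb, hd, hK₂, hK₃, hdδ, hpar⟩ := hP δ q₀ hδ0 hδ2 hq₀
  obtain ⟨CA, hCA⟩ := hNA δ K₃ hδ0 hδ2 hK₃
  obtain ⟨CC, hCC⟩ := hNB δ C₁ K₂ q₀ hδ0 hδ1 hC₁ hK₂ hq₀ hlog
  set M : ℝ := max (max CA CC) 0 with hM
  refine ⟨2 * Real.exp M + 2 ^ n₀, fun n c hn hc => ?_⟩
  obtain ⟨g, hg, hD⟩ := hS n c hn hc
  have hDpos : 1 ≤ g.natDegree := hg.natDegree_pos
  have hdeg1 : 1 ≤ (minpoly ℚ c).natDegree := by omega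
  have hdegR : (1 : ℝ) ≤ (minpoly ℚ c).natDegree := by exact_mod_cast hdeg1
  have hDR : (g.natDegree : ℝ) ≤ 2 * (minpoly ℚ c).natDegree := by exact_mod_cast hD
  have hexp : 1 ≤ Real.exp M := Real.one_le_exp (by rw [hM]; exact le_max_right _ _)
  have hpow0 : (0 : ℝ) < 2 ^ n₀ := by positivity
  have hnR : (0 : ℝ) ≤ n := Nat.cast_nonneg n
  have hle1 : (1 - ε) * n ≤ n := by nlinarith
  by_cases hn0 : n < n₀
  · -- small `n`
    have h1 : (2 : ℝ) ^ ((1 - ε) * n) ≤ 2 ^ n₀ := by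
      rw [← Real.rpow_natCast]
      apply Real.rpow_le_rpow_of_exponent_le (by norm_num)
      have : (n : ℝ) ≤ n₀ := by exact_mod_cast hn0.le
      linarith
    have h2 : (2 : ℝ) ^ n₀ ≤ (2 * Real.exp M + 2 ^ n₀) * (minpoly ℚ c).natDegree := by
      nlinarith
    exact h1.trans h2
  push Not at hn0
  by_cases hbig : 2 ^ n < g.natDegree
  · -- large degree
    have h1 : (2 : ℝ) ^ ((1 - ε) * n) ≤ 2 ^ n := by
      rw [← Real.rpow_natCast]
      exact Real.rpow_le_rpow_of_exponent_le (by norm_num) hle1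
    have h2 : (2 : ℝ) ^ n ≤ g.natDegree := by exact_mod_cast hbig.le
    nlinarith
  push Not at hbig
  have key : (1 - 10 * δ) * n * Real.log 2 ≤ Real.log g.natDegree + M := by
    obtain ⟨q, k', m, r₀, m', hq, hqn, hqδ, hm, hk', hbk, hDk, hK2, hr₀, hJr, hJ, hm', hK3⟩ :=
      hpar n g.natDegree hn0 hn hDpos hbig
    by_cases hcase : n * g.natDegree ≤ d * finrank ℚ (LQ n g q (q₀ * m))
    · obtain ⟨p, hnp, hp⟩ := hA n g hg q (q₀ * m) k' b d J r₀ m' hq hb hd hqn hk' hbk hcase hr₀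
        hJr hJ hm'
      have h1 := hCA n g.natDegree m' p hn hDpos hK3 hnp hp
      have h2 : CA ≤ M := by rw [hM]; exact (le_max_left _ _).trans (le_max_left _ _)
      have h3 : (1 - 10 * δ) * n * Real.log 2 ≤ (1 - δ) * n * Real.log 2 := by
        have h4 : 0 ≤ n * Real.log 2 := mul_nonneg hnR (Real.log_nonneg (by norm_num))
        nlinarith
      linarith
    · push Not at hcase
      have h0 := hCB n g hg m q hm hqn hDk
      have hf : ((finrank ℚ (LQ n g q (q₀ * m)) : ℕ) : ℝ) ≤ δ * (n * g.natDegree) := by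
        have hd' : (0 : ℝ) < d := by exact_mod_cast hd
        have h5 : (d : ℝ) * (finrank ℚ (LQ n g q (q₀ * m)) : ℕ) ≤ n * g.natDegree := by
          exact_mod_cast hcase.le
        have h6 : 1 ≤ δ * d := by
          rw [div_le_iff₀ hd'] at hdδ
          linarith
        have h7 : (0 : ℝ) ≤ (finrank ℚ (LQ n g q (q₀ * m)) : ℕ) := Nat.cast_nonneg _
        calc ((finrank ℚ (LQ n g q (q₀ * m)) : ℕ) : ℝ)
            ≤ (δ * d) * (finrank ℚ (LQ n g q (q₀ * m)) : ℕ) := by nlinarith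
          _ = δ * (d * (finrank ℚ (LQ n g q (q₀ * m)) : ℕ)) := by ring
          _ ≤ δ * (n * g.natDegree) := by
            apply mul_le_mul_of_nonneg_left h5 hδ0.le
      have h1 := hCC n g.natDegree m q _ hn hDpos hm hbig hqδ hK2 hf h0
      have h2 : CC ≤ M := by rw [hM]; exact (le_max_right _ _).trans (le_max_left _ _)
      linarith
  have hDR0 : (0 : ℝ) < g.natDegree := by exact_mod_cast hDpos
  have h1 : (2 : ℝ) ^ ((1 - ε) * n) ≤ Real.exp M * g.natDegree := by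
    rw [← Real.log_le_log_iff (by positivity) (by positivity),
      Real.log_rpow (by norm_num), Real.log_mul (by positivity) (by positivity), Real.log_exp]
    have h4 : 0 ≤ n * Real.log 2 := mul_nonneg hnR (Real.log_nonneg (by norm_num))
    have h5 : (1 - ε) * n * Real.log 2 ≤ (1 - 10 * δ) * n * Real.log 2 := by
      have : 10 * δ ≤ ε := by rw [hδ]; linarith
      nlinarith
    linarith
  calc (2 : ℝ) ^ ((1 - ε) * n) ≤ Real.exp M * g.natDegree := h1
    _ ≤ Real.exp M * (2 * (minpoly ℚ c).natDegree) := by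
      apply mul_le_mul_of_nonneg_left hDR (Real.exp_pos _).le
    _ ≤ (2 * Real.exp M + 2 ^ n₀) * (minpoly ℚ c).natDegree := by nlinarith

end Pool.Agent.EDX.H15
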