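import Pool.Agent.Helper45_EDX.FUL

/-!
# Squad EDX, row MDC (helper15; tools of helper45)
-/

set_option autoImplicit false

namespace Pool.Agent.EDX.H15

open Polynomial Finset Pool.Agent.EDG Pool.Agent.EDX Module Pool.Agent.EDX.H45

/-- Row MDC. -/
theorem mdc : MdcStmt := by
  classical
  intro n g hc P φ hyp θ hθ i hφ
  obtain ⟨ω, hωd⟩ : ∃ ω : FF, ω = θ ^ (2 ^ (i : ℕ)) := ⟨_, rfl⟩
  have hω : ω ∈ rts g := by rw [hωd]; exact pow_mem hc hθ i
  rw [← hωd] at hφ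
  have hDpos : 0 < g.natDegree := hc.natDegree_pos
  have hdeg : (Lg g ω).natDegree < g.natDegree := by
    have h1 : (Lg g ω).degree = ((rts g).card - 1 : ℕ) :=
      Lagrange.degree_basis (v := id) (fun a _ b _ h => h) hω
    rw [natDegree_eq_of_degree_eq_some h1, card_rts hc]
    omega
  have h2 : ∀ z : FF, (Lg g ω).eval z = ∑ e ∈ range g.natDegree, (Lg g ω).coeff e * z ^ e :=
    fun z => eval_eq_sum_range' hdeg z
  have h1 : ∑ ξ ∈ rts g, ∑ j : Fin n, C (P j ξ) * Lg g ξ *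
      (φ (ξ ^ (2 ^ (j : ℕ))) * C ((Lg g ω).eval (ξ ^ (2 ^ (j : ℕ))))) = 0 := by
    have h3 : ∀ ξ : FF, ∀ j : Fin n, C (P j ξ) * Lg g ξ *
        (φ (ξ ^ (2 ^ (j : ℕ))) * C ((Lg g ω).eval (ξ ^ (2 ^ (j : ℕ))))) =
        ∑ e ∈ range g.natDegree, C ((Lg g ω).coeff e) * (C (P j ξ) * Lg g ξ *
          (φ (ξ ^ (2 ^ (j : ℕ))) * C (ξ ^ (2 ^ (j : ℕ) * e)))) := by
      intro ξ j
      rw [h2, map_sum, mul_sum, mul_sum]
      refine Finset.sum_congr rfl fun e _ => ?_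
      rw [C_mul, ← pow_mul]
      ring
    calc ∑ ξ ∈ rts g, ∑ j : Fin n, C (P j ξ) * Lg g ξ *
        (φ (ξ ^ (2 ^ (j : ℕ))) * C ((Lg g ω).eval (ξ ^ (2 ^ (j : ℕ)))))
        = ∑ e ∈ range g.natDegree, C ((Lg g ω).coeff e) * ∑ ξ ∈ rts g, ∑ j : Fin n,
            C (P j ξ) * Lg g ξ * (φ (ξ ^ (2 ^ (j : ℕ))) * C (ξ ^ (2 ^ (j : ℕ) * e))) := by
          simp_rw [h3]
          simp_rw [mul_sum]
          rw [Finset.sum_congr rfl fun ξ _ => Finset.sum_comm, Finset.sum_comm]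
      _ = 0 := by
          refine Finset.sum_eq_zero fun e he => ?_
          rw [hyp e (Finset.mem_range.1 he), mul_zero]
  have h4 : φ ω * ∑ ξ ∈ rts g, ∑ j : Fin n,
      (if ξ ^ (2 ^ (j : ℕ)) = ω then C (P j ξ) * Lg g ξ else 0) = 0 := by
    refine Eq.trans ?_ h1
    rw [mul_sum]
    refine Finset.sum_congr rfl fun ξ hξ => ?_
    rw [mul_sum]
    refine Finset.sum_congr rfl fun j _ => ?_
    by_cases hj : ξ ^ (2 ^ (j : ℕ)) = ω
    · rw [if_pos hj, hj, Lg_eval_self hω, C_1]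
      ring
    · rw [if_neg hj, Lg_eval_ne (pow_mem hc hξ j) (fun hh => hj hh.symm), C_0]
      ring
  have h5 := (mul_eq_zero.mp h4).resolve_left hφ
  have h6 := congrArg (fun p : FF[X] => p.eval θ) h5
  simp only [eval_finset_sum, eval_zero] at h6
  rw [Finset.sum_eq_single_of_mem θ hθ] at h6
  · rw [Finset.sum_eq_single i] at h6
    · rwa [if_pos hωd.symm, eval_mul, eval_C, Lg_eval_self hθ, mul_one] at h6
    · intro j _ hj
      rw [if_neg, eval_zero]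
      rw [hωd]
      exact pow_ne' hc hθ hj
    · intro hh; exact absurd (Finset.mem_univ _) hh
  · intro ξ hξ hne
    refine Finset.sum_eq_zero fun j _ => ?_
    by_cases hj : ξ ^ (2 ^ (j : ℕ)) = ω
    · rw [if_pos hj, eval_mul, Lg_eval_ne hθ hne, mul_zero]
    · rw [if_neg hj, eval_zero]

end Pool.Agent.EDX.H15
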